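import Pool.Agent.P.MP_192724_nt.H3.Count

/-! Edges of a given sign are carried by few vertices when the sign is rare among labels. -/

set_option autoImplicit false

namespace Pool.Agent.P.MP_192724_nt.H3

open Finset

/-- Labels of size at most `R² + |b|` at which `f (n² + b n + c) = σ`. -/
noncomputable def Lab (f : ℤ → ℤ) (b c R σ : ℤ) : Finset ℤ :=
  (Icc (-|b|) (R ^ 2 + |b|)).filter fun n => 0 < n ^ 2 + b * n + c ∧ f (n ^ 2 + b * n + c) = σ

theorem adm_finite (b c R : ℤ) (hd : 4 * c - b ^ 2 ≠ 0) : {p | Adm b c R p}.Finite := by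
  refine (Set.finite_Icc ((-(R + |b| * R), -R) : ℤ × ℤ) (R + |b| * R, R)).subset fun p hp => ?_
  have h1 := (Adm.bounds hd hp).2.2
  obtain ⟨h2, h3, -⟩ := hp
  have h4 : |p.2| ≤ R := by linarith [abs_nonneg p.2]
  have h5 : |b * p.2| ≤ |b| * R := by
    rw [abs_mul]; exact mul_le_mul_of_nonneg_left h4 (abs_nonneg _)
  have h6 := abs_le.1 h5
  have h7 := abs_le.1 h4
  have h8 : 0 ≤ |b| * R := (abs_nonneg _).trans h5
  unfold XF at h2 h3
  exact ⟨⟨by simp only; linarith [h6.2], h7.1⟩, ⟨by simp only; linarith [h6.1], h7.2⟩⟩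

theorem eq_of_cong {b c R : ℤ} (hd : 4 * c - b ^ 2 ≠ 0) {p q : ℤ × ℤ} (hp : Adm b c R p)
    (hq : Adm b c R q) (hQ : QF b c p = QF b c q) (m : ℤ) (h1 : QF b c p ∣ p.1 + m * p.2)
    (h2 : QF b c q ∣ q.1 + m * q.2) : p = q := by
  obtain ⟨a1, -, a3⟩ := hp.bounds hd
  obtain ⟨b1, -, b3⟩ := hq.bounds hd
  have hA := hp.pos hd
  have hp1 := hp.1
  have hq1 := hq.1
  rw [← hQ] at h2 b1
  have h3 : QF b c p ∣ det p q :=
    (dvd_sub (h1.mul_right q.2) (h2.mul_right p.2)).trans (dvd_of_eq (by unfold det; ring))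
  have h4 : 2 * det p q = XF b p * q.2 - XF b q * p.2 := by unfold det XF; ring
  have h5 : |2 * det p q| ≤ XF b p * |q.2| + XF b q * |p.2| := by
    rw [h4]
    refine (abs_sub _ _).trans (le_of_eq ?_)
    rw [abs_mul, abs_mul, abs_of_pos (show 0 < XF b p by omega), abs_of_pos (show 0 < XF b q by omega)]
  have h6 : |det p q| < QF b c p := by
    rw [abs_mul, abs_two] at h5
    nlinarith [sq_nonneg (XF b p - XF b q)]
  have h7 : det p q = 0 := Int.eq_zero_of_abs_lt_dvd h3 h6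
  have e1 := four_QF b c p
  have e2 := four_QF b c q
  rw [← hQ] at e2
  have h8 : XF b p * q.2 = XF b q * p.2 := by linarith
  have h9 : (XF b q ^ 2 - XF b p ^ 2) * (4 * QF b c p) = 0 := by
    have : XF b q ^ 2 * (4 * QF b c p) - XF b p ^ 2 * (4 * QF b c p) = 0 := by
      nth_rewrite 1 [e1]
      rw [e2]
      linear_combination (-(4 * c - b ^ 2) * (XF b p * q.2 + XF b q * p.2)) * h8
    linarith
  have h10 : XF b q = XF b p := by
    rcases mul_eq_zero.1 h9 with h | h
    · nlinarith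
    · omega
  have h11 : q.2 = p.2 := by
    rw [h10] at h8
    exact mul_left_cancel₀ (show XF b p ≠ 0 by omega) h8
  unfold XF at h10
  rw [h11] at h10
  exact Prod.ext (by omega) h11.symm

theorem centers (f : ℤ → ℤ) (hm : ∀ a a', 0 < a → 0 < a' → f (a * a') = f a * f a') (b c : ℤ)
    (hd : 4 * c - b ^ 2 ≠ 0) (R : ℕ) (hR : 1 ≤ R) (σ : ℤ) (Z : ℝ) (hZ : 0 < Z) :
    ∃ C : Finset (ℤ × ℤ), (C.card : ℝ) ≤ Z ^ 2 * (Lab f b c R σ).card +
        6 * (|4 * (c : ℝ) - b ^ 2| + 1) * R ^ 2 * (1 + Real.log R) ^ 2 / Z ∧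
      ∀ p q, Adm b c R p → Adm b c R q → det p q = 1 → f (QF b c p) * f (QF b c q) = σ →
        p ∈ C ∨ q ∈ C := by
  classical
  set V := (adm_finite b c R hd).toFinset.filter fun p => IsCoprime p.1 p.2 with hV
  have hVm : ∀ p, p ∈ V ↔ Adm b c R p ∧ IsCoprime p.1 p.2 := fun p => by
    simp [hV]
  set B := V.filter fun p => Z < tau (QF b c p) with hB
  set S := (Lab f b c R σ).filter fun n => (tau (n ^ 2 + b * n + c) : ℝ) ≤ Z ^ 2 with hS
  set G := S.biUnion fun n => V.filter fun p =>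
    QF b c p ∣ n ^ 2 + b * n + c ∧ QF b c p ∣ p.1 + (n + b) * p.2 with hG
  refine ⟨G ∪ B, ?_, fun p q hp hq h1 h2 => ?_⟩
  · have hb : (B.card : ℝ) ≤ 6 * (|4 * (c : ℝ) - b ^ 2| + 1) * R ^ 2 * (1 + Real.log R) ^ 2 / Z := by
      rw [le_div_iff₀ hZ]
      refine le_trans ?_ (first_moment b c hd R hR B fun p hp => (hVm p).1 (mem_filter.1 hp).1)
      rw [← nsmul_eq_mul]
      exact card_nsmul_le_sum _ _ _ fun p hp => (mem_filter.1 hp).2.le
    have hg : (G.card : ℝ) ≤ Z ^ 2 * (Lab f b c R σ).card := by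
      have h1 : (G.card : ℝ) ≤ ∑ n ∈ S, ((V.filter fun p =>
          QF b c p ∣ n ^ 2 + b * n + c ∧ QF b c p ∣ p.1 + (n + b) * p.2).card : ℝ) := by
        exact_mod_cast card_biUnion_le
      refine h1.trans ((sum_le_card_nsmul _ _ (Z ^ 2) fun n hn => ?_).trans ?_)
      · refine le_trans ?_ (mem_filter.1 hn).2
        have hpos := (mem_filter.1 (mem_filter.1 hn).1).2.1
        unfold tau
        refine Nat.cast_le.2 (card_le_card_of_injOn (fun p => (QF b c p).natAbs) (fun p hp => ?_)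
          fun p hp q hq h => ?_)
        · exact mem_coe.2 (Nat.mem_divisors.2
            ⟨Int.natAbs_dvd_natAbs.2 (mem_filter.1 (mem_coe.1 hp)).2.1, by omega⟩)
        · obtain ⟨hp1, -, hp3⟩ := mem_filter.1 (mem_coe.1 hp)
          obtain ⟨hq1, -, hq3⟩ := mem_filter.1 (mem_coe.1 hq)
          have ap := ((hVm p).1 hp1).1
          have aq := ((hVm q).1 hq1).1
          have := ap.pos hd
          have := aq.pos hd
          simp only at h
          exact eq_of_cong hd ap aq (by omega) (n + b) hp3 hq3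
      · rw [nsmul_eq_mul, mul_comm]
        exact mul_le_mul_of_nonneg_left (Nat.cast_le.2 (card_filter_le _ _)) (by positivity)
    have : ((G ∪ B).card : ℝ) ≤ G.card + B.card := by exact_mod_cast card_union_le _ _
    linarith
  · have hpV : p ∈ V := (hVm p).2 ⟨hp, q.2, -q.1, by unfold det at h1; linarith⟩
    have hqV : q ∈ V := (hVm q).2 ⟨hq, -p.2, p.1, by unfold det at h1; linarith⟩
    by_cases hbp : Z < tau (QF b c p)
    · exact Or.inl (mem_union_right _ (mem_filter.2 ⟨hpV, hbp⟩))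
    by_cases hbq : Z < tau (QF b c q)
    · exact Or.inr (mem_union_right _ (mem_filter.2 ⟨hqV, hbq⟩))
    left
    set n := p.1 * q.1 + b * q.1 * p.2 + c * p.2 * q.2 with hn
    have h1' : p.1 * q.2 = 1 + q.1 * p.2 := by unfold det at h1; linarith
    have e1 : n ^ 2 + b * n + c = QF b c p * QF b c q := by
      have : QF b c p * QF b c q = n ^ 2 + b * n * (p.1 * q.2 - q.1 * p.2) +
          c * (p.1 * q.2 - q.1 * p.2) ^ 2 := by rw [hn]; unfold QF; ring
      rw [this, h1']; ring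
    have e2 : QF b c p * q.2 = p.1 + (n + b) * p.2 := by
      rw [hn]; unfold QF; linear_combination (p.1 + b * p.2) * h1'
    have e3 : 2 * (2 * n + b) = XF b p * XF b q + (4 * c - b ^ 2) * p.2 * q.2 := by
      rw [hn]; unfold XF; linear_combination (-2 * b) * h1'
    have pp := hp.pos hd
    have pq := hq.pos hd
    refine mem_union_left _ (mem_biUnion.2 ⟨n, mem_filter.2 ⟨mem_filter.2 ⟨?_, ?_, ?_⟩, ?_⟩,
      mem_filter.2 ⟨hpV, e1 ▸ dvd_mul_right _ _, e2 ▸ dvd_mul_right _ _⟩⟩)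
    · have a3 := (hq.bounds hd).2.2
      have a4 := hp.2.2
      have a5 : |(4 * c - b ^ 2) * p.2 * q.2| = |4 * c - b ^ 2| * |p.2| * |q.2| := by
        rw [abs_mul, abs_mul]
      have a6 : (8 * |4 * c - b ^ 2| * |p.2|) * (8 * |q.2|) ≤ XF b p * XF b q :=
        mul_le_mul a4 a3 (by positivity) (by linarith [hp.1])
      have a7 : XF b p * XF b q ≤ R * R :=
        mul_le_mul hp.2.1 hq.2.1 (by linarith [hq.1]) (by positivity)
      have a8 := abs_le.1 a5.le
      have a9 : 0 ≤ |4 * c - b ^ 2| * |p.2| * |q.2| := by positivity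
      have a10 := le_abs_self b
      have a11 := neg_abs_le b
      have a12 := abs_nonneg b
      exact mem_Icc.2 ⟨by nlinarith [a8.1], by nlinarith [a8.2]⟩
    · rw [e1]; positivity
    · rw [e1, hm _ _ pp pq, h2]
    · rw [e1]
      have : (tau (QF b c p * QF b c q) : ℝ) ≤ tau (QF b c p) * tau (QF b c q) := by
        exact_mod_cast tau_mul_le _ _
      rw [sq]
      exact this.trans (mul_le_mul (not_lt.1 hbp) (not_lt.1 hbq) (by positivity) hZ.le)

end Pool.Agent.P.MP_192724_nt.H3
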