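import Mathlib

/-! Lattice points, Farey edges and the sail lemma. -/

set_option autoImplicit false

namespace Pool.Agent.P.MP_192724_nt.H3

/-- The binary form `x² + b x y + c y²`. -/
def QF (b c : ℤ) (p : ℤ × ℤ) : ℤ := p.1 ^ 2 + b * p.1 * p.2 + c * p.2 ^ 2

/-- The linear form `2 x + b y`. -/
def XF (b : ℤ) (p : ℤ × ℤ) : ℤ := 2 * p.1 + b * p.2

/-- The determinant of two lattice points. -/
def det (p q : ℤ × ℤ) : ℤ := p.1 * q.2 - q.1 * p.2

theorem four_QF (b c : ℤ) (p : ℤ × ℤ) :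
    4 * QF b c p = XF b p ^ 2 + (4 * c - b ^ 2) * p.2 ^ 2 := by
  unfold QF XF; ring

/-- A lattice point in the triangle `0, p, q` when the determinant exceeds one. -/
theorem exists_mid (p q : ℤ × ℤ) (h : 1 < det p q) :
    ∃ (r : ℤ × ℤ) (U V : ℤ), 0 ≤ U ∧ 0 ≤ V ∧ U < det p q ∧ V < det p q ∧ 0 < U + V ∧
      U + V ≤ det p q ∧ det p q * r.1 = U * p.1 + V * q.1 ∧ det p q * r.2 = U * p.2 + V * q.2 := by
  set Δ := det p q with hΔ
  have hΔ0 : 0 < Δ := by omega
  have step : ∀ e : ℤ × ℤ, ¬ (Δ ∣ det e q ∧ Δ ∣ det p e) →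
      ∃ (r : ℤ × ℤ) (U V : ℤ), 0 ≤ U ∧ 0 ≤ V ∧ U < Δ ∧ V < Δ ∧ 0 < U + V ∧
      U + V ≤ Δ ∧ Δ * r.1 = U * p.1 + V * q.1 ∧ Δ * r.2 = U * p.2 + V * q.2 := by
    intro e he
    have hU0 := Int.emod_nonneg (det e q) hΔ0.ne'
    have hV0 := Int.emod_nonneg (det p e) hΔ0.ne'
    have hU1 := Int.emod_lt_of_pos (det e q) hΔ0
    have hV1 := Int.emod_lt_of_pos (det p e) hΔ0
    have hU := Int.emod_add_mul_ediv (det e q) Δ
    have hV := Int.emod_add_mul_ediv (det p e) Δ
    have hne : 0 < det e q % Δ + det p e % Δ := by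
      by_contra hc
      exact he ⟨Int.dvd_of_emod_eq_zero (by omega), Int.dvd_of_emod_eq_zero (by omega)⟩
    generalize det e q % Δ = U at *
    generalize det p e % Δ = V at *
    generalize det e q / Δ = a at *
    generalize det p e / Δ = a' at *
    have e1 : Δ * e.1 = det e q * p.1 + det p e * q.1 := by rw [hΔ]; unfold det; ring
    have e2 : Δ * e.2 = det e q * p.2 + det p e * q.2 := by rw [hΔ]; unfold det; ring
    rw [← hU, ← hV] at e1 e2
    by_cases hs : U + V ≤ Δ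
    · exact ⟨(e.1 - a * p.1 - a' * q.1, e.2 - a * p.2 - a' * q.2), U, V, hU0, hV0, hU1, hV1, hne, hs,
        by simp only; linear_combination e1, by simp only; linear_combination e2⟩
    · exact ⟨(p.1 + q.1 - (e.1 - a * p.1 - a' * q.1), p.2 + q.2 - (e.2 - a * p.2 - a' * q.2)),
        Δ - U, Δ - V, by omega, by omega, by omega, by omega, by omega, by omega,
        by simp only; linear_combination -e1, by simp only; linear_combination -e2⟩
  by_cases h1 : Δ ∣ det (1, 0) q ∧ Δ ∣ det p (1, 0)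
  · by_cases h2 : Δ ∣ det (0, 1) q ∧ Δ ∣ det p (0, 1)
    · exfalso
      simp only [det, one_mul, mul_zero, sub_zero, zero_sub, dvd_neg, zero_mul, mul_one] at h1 h2
      have h3 : Δ * Δ ∣ Δ * 1 := by
        rw [mul_one]
        conv_rhs => rw [hΔ]; unfold det
        exact dvd_sub (mul_dvd_mul h2.2 h1.1) (mul_dvd_mul h2.1 h1.2)
      have := Int.le_of_dvd one_pos (Int.dvd_of_mul_dvd_mul_left hΔ0.ne' h3)
      omega
    · exact step _ h2
  · exact step _ h1

/-- The sail lemma: two points of a truncated cone with different colours give a bichromatic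
unimodular pair in the same truncated cone. -/
theorem sail (C : ℤ × ℤ → Prop) (F : ℤ × ℤ → ℤ)
    (hC : ∀ (p q r : ℤ × ℤ) (U V Δ : ℤ), C p → C q → 0 ≤ U → 0 ≤ V → 0 < U + V → U + V ≤ Δ →
      Δ * r.1 = U * p.1 + V * q.1 → Δ * r.2 = U * p.2 + V * q.2 → C r)
    (hF : ∀ p q, C p → C q → det p q = 0 → F p = F q)
    (p q : ℤ × ℤ) (hp : C p) (hq : C q) (hne : F p ≠ F q) :
    ∃ p' q', C p' ∧ C q' ∧ det p' q' = 1 ∧ F p' ≠ F q' := by
  have key : ∀ n : ℕ, ∀ p q, C p → C q → F p ≠ F q → det p q = n →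
      ∃ p' q', C p' ∧ C q' ∧ det p' q' = 1 ∧ F p' ≠ F q' := by
    intro n
    induction n using Nat.strong_induction_on with
    | _ n ih =>
      intro p q hp hq hne hn
      have h0 : det p q ≠ 0 := fun h => hne (hF p q hp hq h)
      by_cases h1 : det p q = 1
      · exact ⟨p, q, hp, hq, h1, hne⟩
      obtain ⟨r, U, V, hU, hV, hU1, hV1, hs, hs1, e1, e2⟩ := exists_mid p q (by omega)
      have hr := hC p q r U V _ hp hq hU hV hs hs1 e1 e2
      have d1 : det p r = V := by
        apply mul_left_cancel₀ h0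
        have : det p q = p.1 * q.2 - q.1 * p.2 := rfl
        calc det p q * det p r = p.1 * (det p q * r.2) - (det p q * r.1) * p.2 := by
              unfold det; ring
          _ = det p q * V := by rw [e1, e2, this]; ring
      have d2 : det r q = U := by
        apply mul_left_cancel₀ h0
        have : det p q = p.1 * q.2 - q.1 * p.2 := rfl
        calc det p q * det r q = (det p q * r.1) * q.2 - q.1 * (det p q * r.2) := by
              unfold det; ring
          _ = det p q * U := by rw [e1, e2, this]; ring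
      by_cases hpr : F p = F r
      · exact ih U.toNat (by omega) r q hr hq (hpr ▸ hne) (by omega)
      · exact ih V.toNat (by omega) p r hp hr hpr (by omega)
  rcases le_total 0 (det p q) with h | h
  · exact key (det p q).toNat p q hp hq hne (by omega)
  · have : det q p = -det p q := by unfold det; ring
    exact key (det q p).toNat q p hq hp hne.symm (by omega)

/-- A Farey edge of order `N` whose cone contains the direction `s`. -/
theorem farey (b : ℤ) (s : ℝ) (hs : |s| ≤ 1 / 2) (N : ℤ) (hN : 2 ≤ N) :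
    ∃ p q : ℤ × ℤ, det p q = 1 ∧ 1 ≤ XF b p ∧ XF b p ≤ N ∧ 1 ≤ XF b q ∧ XF b q ≤ N ∧
      N < XF b p + XF b q ∧ (p.2 : ℝ) ≤ s * XF b p ∧ s * XF b q ≤ q.2 := by
  have hs' := abs_le.1 hs
  obtain ⟨z, ⟨p, q, h1, h2, h3, h4, h5, h6, h7, hz⟩, hmax⟩ := Int.exists_greatest_of_bdd
    (P := fun z => ∃ p q : ℤ × ℤ, det p q = 1 ∧ 1 ≤ XF b p ∧ XF b p ≤ N ∧ 1 ≤ XF b q ∧
      XF b q ≤ N ∧ (p.2 : ℝ) ≤ s * XF b p ∧ s * XF b q ≤ q.2 ∧ XF b p + XF b q = z)
    ⟨2 * N, by rintro z ⟨p, q, -, -, h3, -, h5, -, -, rfl⟩; omega⟩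
    (by
      rcases le_total 0 s with h0 | h0
      · obtain ⟨x, hx1, hx2⟩ : ∃ x : ℤ, 1 ≤ 2 * x + b ∧ 2 * x + b ≤ 2 := ⟨(2 - b) / 2, by omega, by omega⟩
        have hx3 : ((2 * x + b : ℤ) : ℝ) ≤ 2 := by exact_mod_cast hx2
        refine ⟨_, (1, 0), (x, 1), by simp [det], by simp [XF], by simpa [XF] using hN,
          by simpa [XF] using hx1, by simp only [XF]; omega, by simp [XF]; linarith, ?_, rfl⟩
        simp only [XF, mul_one, Int.cast_one]
        nlinarith [hs'.2]
      · obtain ⟨x, hx1, hx2⟩ : ∃ x : ℤ, 1 ≤ 2 * x - b ∧ 2 * x - b ≤ 2 := ⟨(2 + b) / 2, by omega, by omega⟩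
        have hx3 : ((2 * x + b * (-1) : ℤ) : ℝ) ≤ 2 := by exact_mod_cast (by omega : 2 * x + b * (-1) ≤ 2)
        refine ⟨_, (x, -1), (1, 0), by simp [det], by simp only [XF]; omega, by simp only [XF]; omega,
          by simp [XF], by simpa [XF] using hN, ?_, by simp [XF]; linarith, rfl⟩
        simp only [XF, Int.cast_neg, Int.cast_one]
        nlinarith [hs'.1])
  refine ⟨p, q, h1, h2, h3, h4, h5, ?_, h6, h7⟩
  by_contra hc
  have hr : XF b (p + q) = XF b p + XF b q := by simp only [XF, Prod.fst_add, Prod.snd_add]; ring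
  rcases le_total (((p + q).2 : ℤ) : ℝ) (s * XF b (p + q)) with h | h
  · have := hmax _ ⟨p + q, q, by rw [← h1]; simp only [det, Prod.fst_add, Prod.snd_add]; ring,
      by omega, by omega, h4, h5, h, h7, rfl⟩
    omega
  · have := hmax _ ⟨p, p + q, by rw [← h1]; simp only [det, Prod.fst_add, Prod.snd_add]; ring,
      h2, h3, by omega, by omega, h6, h, rfl⟩
    omega

end Pool.Agent.P.MP_192724_nt.H3
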