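import Pool.Agent.P.MP_192724_nt.H3.Center
import Pool.Agent.P.MP_192724_nt.Top

/-! The bad set of angles, and local constancy of the colour away from it. -/

set_option autoImplicit false

namespace Pool.Agent.P.MP_192724_nt.H3

open Finset MeasureTheory Metric

/-- Slope of a lattice point in the coordinates `(2x + by, y)`. -/
noncomputable def slope (b : ℤ) (p : ℤ × ℤ) : ℝ := (p.2 : ℝ) / (XF b p : ℝ)

/-- The bad set of angles. -/
def Bad (φ : ℝ → ℝ) (b : ℤ) (C : Finset (ℤ × ℤ)) (L ρ q0 : ℝ) : Set ℝ :=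
  (⋃ p ∈ C, closedBall (φ (slope b p)) (2 * L)) ∪
    ⋃ q ∈ Icc 1 ⌊q0⌋₊, ⋃ r ∈ Icc (-(q : ℤ)) q, closedBall (φ ((r : ℝ) / q)) (2 / (q * ρ))

theorem vol_bad (φ : ℝ → ℝ) (b : ℤ) (C : Finset (ℤ × ℤ)) {L ρ q0 : ℝ} (hL : 0 ≤ L) (hρ : 0 < ρ)
    (hq : 0 ≤ q0) : volume (Bad φ b C L ρ q0) ≤ ENNReal.ofReal (4 * L * C.card + 12 * q0 / ρ) := by
  rw [ENNReal.ofReal_add (by positivity) (by positivity)]
  refine (measure_union_le _ _).trans (add_le_add ?_ ?_)
  · refine (measure_biUnion_finset_le _ _).trans (le_of_eq ?_)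
    simp only [Real.volume_closedBall, sum_const]
    rw [← ENNReal.ofReal_nsmul, nsmul_eq_mul]
    congr 1; ring
  · refine (measure_biUnion_finset_le _ _).trans ?_
    refine (sum_le_card_nsmul _ _ (ENNReal.ofReal (12 / ρ)) fun q hq => ?_).trans ?_
    · refine (measure_biUnion_finset_le _ _).trans ?_
      simp only [Real.volume_closedBall, sum_const]
      rw [← ENNReal.ofReal_nsmul, nsmul_eq_mul, Int.card_Icc]
      refine ENNReal.ofReal_le_ofReal ?_
      have h1 := (mem_Icc.1 hq).1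
      have h2 : (0 : ℝ) < q := by exact_mod_cast h1
      have h3 : (((q : ℤ) + 1 - -(q : ℤ)).toNat : ℝ) ≤ 3 * q := by
        have : ((q : ℤ) + 1 - -(q : ℤ)).toNat ≤ 3 * q := by omega
        exact_mod_cast this
      calc _ ≤ (3 * (q : ℝ)) * (2 * (2 / (q * ρ))) := mul_le_mul_of_nonneg_right h3 (by positivity)
        _ = _ := by field_simp; ring
    · rw [← ENNReal.ofReal_nsmul, nsmul_eq_mul, Nat.card_Icc]
      refine ENNReal.ofReal_le_ofReal ?_
      have := Nat.floor_le hq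
      simp only [Nat.add_sub_cancel]
      calc (⌊q0⌋₊ : ℝ) * (12 / ρ) ≤ q0 * (12 / ρ) := mul_le_mul_of_nonneg_right this (by positivity)
        _ = _ := by ring

theorem avoid (B : Set ℝ) (δ h : ℝ) (hδ : 0 ≤ δ) (hB : volume B ≤ ENNReal.ofReal δ) (K : ℕ)
    (A : ℕ → ℝ) (hK : (K + 1) * δ < 2 * h) : ∃ θ, |θ| ≤ h ∧ ∀ i ≤ K, θ + A i ∉ B := by
  by_contra hc
  push Not at hc
  have hsub : Set.Icc (-h) h ⊆ ⋃ i ∈ range (K + 1), (fun θ => θ + A i) ⁻¹' B := by
    intro θ hθ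
    obtain ⟨i, hi, h2⟩ := hc θ (abs_le.2 hθ)
    exact Set.mem_biUnion (mem_coe.2 (mem_range.2 (by omega))) h2
  have h1 := (measure_mono (μ := volume) hsub).trans (measure_biUnion_finset_le _ _)
  simp only [measure_preimage_add_right, sum_const, card_range, Real.volume_Icc] at h1
  have h2 := h1.trans (nsmul_le_nsmul_right hB _)
  rw [← ENNReal.ofReal_nsmul, nsmul_eq_mul, ENNReal.ofReal_le_ofReal_iff (by positivity)] at h2
  push_cast at h2
  linarith

section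

variable {b c : ℤ} {φ : ℝ → ℝ}

/-- The half-width of the cone of admissible slopes. -/
noncomputable def tw (b c : ℤ) : ℝ := 1 / (8 * |4 * (c : ℝ) - b ^ 2|)

theorem one_le_D (hd : 4 * c - b ^ 2 ≠ 0) : 1 ≤ |4 * (c : ℝ) - b ^ 2| := by
  exact_mod_cast Int.one_le_abs hd

theorem tw_pos (hd : 4 * c - b ^ 2 ≠ 0) : 0 < tw b c := by
  have := one_le_D hd
  unfold tw; positivity

theorem tw_le (hd : 4 * c - b ^ 2 ≠ 0) : tw b c ≤ 1 / 8 := by
  have := one_le_D hd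
  unfold tw
  exact one_div_le_one_div_of_le (by norm_num) (by linarith)

theorem tw_sq (hd : 4 * c - b ^ 2 ≠ 0) : |4 * (c : ℝ) - b ^ 2| * tw b c ^ 2 ≤ 1 / 16 := by
  have h1 := one_le_D hd
  have h2 : |4 * (c : ℝ) - b ^ 2| * tw b c = 1 / 8 := by unfold tw; field_simp
  have h3 := tw_le hd
  rw [sq (tw b c), ← mul_assoc, h2]; linarith

theorem adm_iff (hd : 4 * c - b ^ 2 ≠ 0) (R : ℤ) (p : ℤ × ℤ) :
    Adm b c R p ↔ 1 ≤ XF b p ∧ XF b p ≤ R ∧ |slope b p| ≤ tw b c := by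
  unfold Adm
  refine and_congr_right fun h1 => and_congr_right fun _ => ?_
  have h2 : (0 : ℝ) < XF b p := by exact_mod_cast h1
  have h3 := one_le_D hd
  unfold slope tw
  rw [abs_div, abs_of_pos h2, div_le_div_iff₀ h2 (by positivity), one_mul, mul_comm]
  exact_mod_cast Iff.rfl

theorem surj' {d : ℝ} (hφ : Ang d φ) {τ θ : ℝ} (hθ : |θ| ≤ τ / 2) : ∃ t, |t| ≤ τ ∧ φ t = θ := by
  obtain ⟨t, rfl⟩ := hφ.surj θ
  have := (hφ.abs_le 0 t).1
  rw [hφ.zero, sub_zero, sub_zero] at this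
  exact ⟨t, by linarith, rfl⟩

theorem den_bound {d τ t m : ℝ} (hτ : |d| * τ ^ 2 ≤ 1 / 16) (ht : |t| ≤ τ / 2) (hm : |m| ≤ τ / 4) :
    |d * (t * m)| ≤ 1 / 16 := by
  have hτ0 : 0 ≤ τ := by linarith [abs_nonneg t]
  rw [abs_mul, abs_mul]
  have : |t| * |m| ≤ τ ^ 2 := by nlinarith [abs_nonneg t, abs_nonneg m]
  nlinarith [abs_nonneg d]

theorem add_bound {d τ t m : ℝ} (hτ : |d| * τ ^ 2 ≤ 1 / 16) (ht : |t| ≤ τ / 2) (hm : |m| ≤ τ / 4) :
    |(t + m) / (1 - d * (t * m))| ≤ τ := by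
  have h1 := abs_le.1 (den_bound hτ ht hm)
  have hp : 0 < 1 - d * (t * m) := by linarith [h1.2]
  have hτ0 : 0 ≤ τ := by linarith [abs_nonneg t]
  rw [abs_div, abs_of_pos hp, div_le_iff₀ hp]
  have := abs_add_le t m
  nlinarith [h1.2]

theorem near_pt (hd : 4 * c - b ^ 2 ≠ 0) (hφ : Ang (4 * (c : ℝ) - b ^ 2) φ) {C : Finset (ℤ × ℤ)}
    {L ρ q0 θ : ℝ} (hρ : 2 ≤ ρ) (hq : 0 < q0) (hL : 2 / (q0 * ρ) ≤ L) (hL' : L ≤ tw b c / 2)
    (hθ : |θ| ≤ tw b c / 8) (hB : θ ∉ Bad φ b C L ρ q0) :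
    ∃ p, 1 ≤ XF b p ∧ (XF b p : ℝ) ≤ 2 * ρ ∧ |slope b p| ≤ tw b c / 2 ∧ |φ (slope b p) - θ| ≤ L := by
  have t0 := tw_pos hd
  have t1 := tw_le hd
  obtain ⟨t, ht, rfl⟩ := surj' hφ (τ := tw b c / 4) (θ := θ) (by linarith)
  obtain ⟨k, hk0, hk1, hk2⟩ := Real.exists_nat_abs_mul_sub_round_le t (n := ⌊ρ⌋₊)
    (Nat.floor_pos.2 (by linarith))
  have hk : (1 : ℝ) ≤ k := by exact_mod_cast hk0
  have hkρ : (k : ℝ) ≤ ρ := (Nat.cast_le.2 hk1).trans (Nat.floor_le (by linarith))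
  set r := round (k * t) with hr
  have h1 : |(r : ℝ) / k - t| ≤ 1 / (k * ρ) := by
    have h2 : |k * t - r| ≤ 1 / ρ :=
      hk2.trans (one_div_le_one_div_of_le (by linarith) (Nat.lt_floor_add_one ρ).le)
    have : (r : ℝ) / k - t = -(k * t - r) / k := by field_simp; ring
    rw [this, abs_div, abs_neg, abs_of_pos (show (0 : ℝ) < k by linarith), mul_comm (k : ℝ) ρ,
      ← div_div]
    exact div_le_div_of_nonneg_right h2 (by linarith)
  have h3 := (hφ.abs_le t ((r : ℝ) / k)).2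
  have hkq : q0 < k := by
    by_contra hc
    refine hB (Or.inr (Set.mem_biUnion (x := k) (mem_coe.2 (mem_Icc.2 ⟨hk0, Nat.le_floor (not_lt.1 hc)⟩))
      (Set.mem_biUnion (x := r) (mem_coe.2 (mem_Icc.2 (abs_le.1 ?_))) ?_)))
    · have h4 : 1 / (k * ρ) ≤ 1 / 2 := one_div_le_one_div_of_le (by norm_num) (by nlinarith)
      have h5 : |(r : ℝ) / k| ≤ 1 := by
        have := abs_add_le ((r : ℝ) / k - t) t
        rw [sub_add_cancel] at this
        linarith
      rw [abs_div, abs_of_pos (show (0 : ℝ) < k by linarith), div_le_one (by linarith)] at h5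
      exact_mod_cast h5
    · rw [mem_closedBall, Real.dist_eq, abs_sub_comm]
      calc _ ≤ 2 * (1 / (k * ρ)) := by linarith
        _ = _ := by ring
  have h6 : 1 / (k * ρ) ≤ L / 2 := by
    have : 1 / (k * ρ) ≤ 1 / (q0 * ρ) := one_div_le_one_div_of_le (by positivity) (by nlinarith)
    have h7 : 2 / (q0 * ρ) = 2 * (1 / (q0 * ρ)) := by ring
    linarith
  have hX : XF b (k - b * r, 2 * r) = 2 * k := by unfold XF; ring
  have hs : slope b (k - b * r, 2 * r) = (r : ℝ) / k := by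
    unfold slope; rw [hX]; push_cast; field_simp
  refine ⟨(k - b * r, 2 * r), by omega, by rw [hX]; push_cast; linarith, ?_, by rw [hs]; linarith⟩
  rw [hs]
  have := abs_add_le ((r : ℝ) / k - t) t
  rw [sub_add_cancel] at this
  linarith

theorem same (f : ℤ → ℤ) (hm : ∀ a a', 0 < a → 0 < a' → f (a * a') = f a * f a')
    (h1 : ∀ a, 0 < a → f a = 1 ∨ f a = -1)
    (hd : 4 * c - b ^ 2 ≠ 0) (hφ : Ang (4 * (c : ℝ) - b ^ 2) φ) {C : Finset (ℤ × ℤ)} {R : ℤ}
    (hC : ∀ p q, Adm b c R p → Adm b c R q → det p q = 1 → f (QF b c p) * f (QF b c q) = -1 →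
      p ∈ C ∨ q ∈ C)
    {L ρ q0 θ : ℝ} (hB : θ ∉ Bad φ b C L ρ q0) {p q : ℤ × ℤ} (hp : Adm b c R p) (hq : Adm b c R q)
    (hp' : |φ (slope b p) - θ| ≤ 2 * L) (hq' : |φ (slope b q) - θ| ≤ 2 * L) :
    f (QF b c p) = f (QF b c q) := by
  by_contra hne
  set lo := min (slope b p) (slope b q) with hlo
  set hi := max (slope b p) (slope b q) with hhi
  have hsl : ∀ r, 1 ≤ XF b r →
      ((lo * XF b r ≤ r.2 ∧ (r.2 : ℝ) ≤ hi * XF b r) ↔ (lo ≤ slope b r ∧ slope b r ≤ hi)) := by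
    intro r hr
    have : (0 : ℝ) < XF b r := by exact_mod_cast hr
    unfold slope
    rw [le_div_iff₀ this, div_le_iff₀ this]
  obtain ⟨p', q', hp1, hq1, e1, e2⟩ := sail
    (fun r => Adm b c R r ∧ lo * XF b r ≤ r.2 ∧ (r.2 : ℝ) ≤ hi * XF b r) (fun r => f (QF b c r))
    (by
      rintro p q r U V Δ ⟨⟨a1, a2, a3⟩, a4, a5⟩ ⟨⟨b1, b2, b3⟩, b4, b5⟩ hU hV hs hs' e1 e2
      have hΔ : 0 < Δ := by omega
      have eX : Δ * XF b r = U * XF b p + V * XF b q := by
        unfold XF; linear_combination 2 * e1 + b * e2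
      have hΔ' : (0 : ℝ) < Δ := by exact_mod_cast hΔ
      have hU' : (0 : ℝ) ≤ U := by exact_mod_cast hU
      have hV' : (0 : ℝ) ≤ V := by exact_mod_cast hV
      have eX' : (Δ : ℝ) * XF b r = U * XF b p + V * XF b q := by exact_mod_cast eX
      have e2' : (Δ : ℝ) * r.2 = U * p.2 + V * q.2 := by exact_mod_cast e2
      refine ⟨⟨?_, ?_, ?_⟩, ?_, ?_⟩
      · by_contra hc
        nlinarith
      · refine le_of_mul_le_mul_left ?_ hΔ
        nlinarith
      · refine le_of_mul_le_mul_left ?_ hΔ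
        have h5 : Δ * |r.2| ≤ U * |p.2| + V * |q.2| := by
          have := abs_add_le (U * p.2) (V * q.2)
          rwa [← e2, abs_mul, abs_mul, abs_mul, abs_of_pos hΔ, abs_of_nonneg hU,
            abs_of_nonneg hV] at this
        have h6 := mul_le_mul_of_nonneg_left h5 (show 0 ≤ 8 * |4 * c - b ^ 2| by positivity)
        nlinarith [mul_le_mul_of_nonneg_left a3 hU, mul_le_mul_of_nonneg_left b3 hV]
      · refine le_of_mul_le_mul_left ?_ hΔ'
        rw [mul_left_comm, eX', e2']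
        linarith [mul_le_mul_of_nonneg_left a4 hU', mul_le_mul_of_nonneg_left b4 hV']
      · refine le_of_mul_le_mul_left ?_ hΔ'
        rw [mul_left_comm, eX', e2']
        linarith [mul_le_mul_of_nonneg_left a5 hU', mul_le_mul_of_nonneg_left b5 hV'])
    (by
      rintro p q ⟨hp, -⟩ ⟨hq, -⟩ h0
      have a1 := hp.1
      have a2 := hq.1
      have e0 : XF b p * q.2 = XF b q * p.2 := by
        unfold det at h0; unfold XF; linear_combination 2 * h0
      have e : (XF b q * XF b q) * QF b c p = (XF b p * XF b p) * QF b c q := by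
        apply mul_left_cancel₀ (show (4 : ℤ) ≠ 0 by norm_num)
        linear_combination (XF b q) ^ 2 * four_QF b c p - (XF b p) ^ 2 * four_QF b c q -
          (4 * c - b ^ 2) * (XF b p * q.2 + XF b q * p.2) * e0
      have e' := congrArg f e
      rw [hm _ _ (by positivity) (hp.pos hd), hm _ _ (by positivity) (hq.pos hd),
        hm _ _ (by omega) (by omega), hm _ _ (by omega) (by omega)] at e'
      rcases h1 (XF b p) (by omega) with h | h <;> rcases h1 (XF b q) (by omega) with h' | h' <;>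
        simpa [h, h'] using e')
    p q ⟨hp, (hsl p hp.1).2 ⟨min_le_left _ _, le_max_left _ _⟩⟩
    ⟨hq, (hsl q hq.1).2 ⟨min_le_right _ _, le_max_right _ _⟩⟩ hne
  have hin : ∀ r, Adm b c R r ∧ lo * XF b r ≤ r.2 ∧ (r.2 : ℝ) ≤ hi * XF b r → r ∉ C := by
    rintro r ⟨hr, hr'⟩ hrC
    obtain ⟨h2, h3⟩ := (hsl r hr.1).1 hr'
    refine hB (Or.inl (Set.mem_biUnion (mem_coe.2 hrC) ?_))
    rw [mem_closedBall, Real.dist_eq]
    have a1 := hφ.mono h2
    have a2 := hφ.mono h3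
    rw [hlo, hφ.mono.map_min] at a1
    rw [hhi, hφ.mono.map_max] at a2
    have a3 := abs_le.1 hp'
    have a4 := abs_le.1 hq'
    refine abs_le.2 ⟨?_, ?_⟩
    · rcases le_max_iff.1 a2 with h | h <;> linarith [a3.2, a4.2]
    · rcases min_le_iff.1 a1 with h | h <;> linarith [a3.1, a4.1]
  have e3 : f (QF b c p') * f (QF b c q') = -1 := by
    rcases h1 _ (hp1.1.pos hd) with h | h <;> rcases h1 _ (hq1.1.pos hd) with h' | h' <;>
      simp_all
  rcases hC p' q' hp1.1 hq1.1 e1 e3 with h | h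
  · exact hin _ hp1 h
  · exact hin _ hq1 h

end

end Pool.Agent.P.MP_192724_nt.H3
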