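import Pool.Agent.P.MP_192724_nt.H3.Core

/-! The almost-period chain and the two covering inequalities. -/

set_option autoImplicit false

namespace Pool.Agent.P.MP_192724_nt.H3

open Finset MeasureTheory Metric

variable {b c : ℤ} {φ : ℝ → ℝ}

/-- Angle of a multiplier `u + v √Δ`. -/
noncomputable def ang (φ : ℝ → ℝ) (μ : ℤ × ℤ) : ℝ := φ ((μ.2 : ℝ) / μ.1)

/-- Colour of a multiplier. -/
def col (f : ℤ → ℤ) (b c : ℤ) (μ : ℤ × ℤ) : ℤ := f (μ.1 ^ 2 + (4 * c - b ^ 2) * μ.2 ^ 2)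

/-- Size conditions on a multiplier. -/
def MulOK (b c : ℤ) (R ρ : ℝ) (μ : ℤ × ℤ) : Prop :=
  1 ≤ μ.1 ∧ 4 * μ.1 * ρ ≤ R ∧ |(μ.2 : ℝ) / μ.1| ≤ tw b c / 4

theorem mul_step (f : ℤ → ℤ) (hm : ∀ a a', 0 < a → 0 < a' → f (a * a') = f a * f a')
    (hd : 4 * c - b ^ 2 ≠ 0) (hφ : Ang (4 * (c : ℝ) - b ^ 2) φ) {R : ℤ} {ρ : ℝ} {p μ : ℤ × ℤ}
    (hμ : MulOK b c R ρ μ) (h1 : 1 ≤ XF b p) (h2 : (XF b p : ℝ) ≤ 2 * ρ)
    (h3 : |slope b p| ≤ tw b c / 2) :
    ∃ p', Adm b c R p' ∧ φ (slope b p') = φ (slope b p) + ang φ μ ∧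
      f (QF b c p') = col f b c μ * f (QF b c p) := by
  obtain ⟨m1, m2, m3⟩ := hμ
  have t0 := tw_pos hd
  have e16 : tw b c / 2 = 1 / (16 * |4 * (c : ℝ) - b ^ 2|) := by unfold tw; rw [div_div]; congr 1; ring
  set p' : ℤ × ℤ := (p.1 * μ.1 - b * p.1 * μ.2 - 2 * c * p.2 * μ.2, XF b p * μ.2 + p.2 * μ.1) with hp'
  have eX : XF b p' = XF b p * μ.1 - (4 * c - b ^ 2) * p.2 * μ.2 := by rw [hp']; unfold XF; ring
  have eQ : QF b c p' = (μ.1 ^ 2 + (4 * c - b ^ 2) * μ.2 ^ 2) * QF b c p := by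
    rw [hp']; unfold QF XF; ring
  have hX : (0 : ℝ) < XF b p := by exact_mod_cast h1
  have hu : (0 : ℝ) < μ.1 := by exact_mod_cast m1
  have hden := abs_le.1 (den_bound (tw_sq hd) h3 m3)
  have eX' : (XF b p' : ℝ) =
      XF b p * μ.1 * (1 - (4 * (c : ℝ) - b ^ 2) * (slope b p * ((μ.2 : ℝ) / μ.1))) := by
    rw [eX]; unfold slope; push_cast; field_simp
  have hpos : (0 : ℝ) < 1 - (4 * (c : ℝ) - b ^ 2) * (slope b p * ((μ.2 : ℝ) / μ.1)) := by
    linarith [hden.2]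
  have hX' : (0 : ℝ) < XF b p' := by rw [eX']; positivity
  have es : slope b p' = (slope b p + (μ.2 : ℝ) / μ.1) /
      (1 - (4 * (c : ℝ) - b ^ 2) * (slope b p * ((μ.2 : ℝ) / μ.1))) := by
    rw [eq_div_iff hpos.ne']
    have : slope b p' = (p'.2 : ℝ) / XF b p' := rfl
    rw [this, eX', div_mul_eq_mul_div, mul_div_mul_right _ _ hpos.ne', hp']
    unfold slope; push_cast; field_simp; ring
  have hadm : Adm b c R p' := by
    refine (adm_iff hd R p').2 ⟨by exact_mod_cast hX', ?_, ?_⟩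
    · have : (XF b p' : ℝ) ≤ R := by
        rw [eX']
        have h4 : (XF b p : ℝ) * μ.1 ≤ 2 * ρ * μ.1 := mul_le_mul_of_nonneg_right h2 hu.le
        have h5 := mul_pos hX hu
        nlinarith [hden.1]
      exact_mod_cast this
    · rw [es]; exact add_bound (tw_sq hd) h3 m3
  refine ⟨p', hadm, by rw [es]; exact hφ.add (one_le_D hd) (h3.trans_eq e16) (m3.trans (by linarith)), ?_⟩
  have hp : Adm b c (XF b p) p := (adm_iff hd _ p).2 ⟨h1, le_rfl, by linarith⟩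
  have := hadm.pos hd
  rw [eQ] at this
  rw [eQ, hm _ _ ((pos_iff_pos_of_mul_pos this).2 (hp.pos hd)) (hp.pos hd)]
  rfl

theorem exists_sign (f : ℤ → ℤ) (hm : ∀ a a', 0 < a → 0 < a' → f (a * a') = f a * f a')
    (h1 : ∀ a, 0 < a → f a = 1 ∨ f a = -1)
    (hd : 4 * c - b ^ 2 ≠ 0) (hφ : Ang (4 * (c : ℝ) - b ^ 2) φ) {C : Finset (ℤ × ℤ)} {R : ℤ}
    (hC : ∀ p q, Adm b c R p → Adm b c R q → det p q = 1 → f (QF b c p) * f (QF b c q) = -1 →
      p ∈ C ∨ q ∈ C)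
    {L ρ q0 : ℝ} (hρ : 2 ≤ ρ) (hρR : 2 * ρ ≤ R) (hq : 0 < q0) (hL : 2 / (q0 * ρ) ≤ L)
    (hL' : L ≤ tw b c / 2) :
    ∃ s : ℝ → ℤ, (∀ θ, s θ ≠ 0) ∧ ∀ μ, MulOK b c R ρ μ → ∀ t, |t| ≤ L →
      Good s (tw b c / 8) (ang φ μ + t) (col f b c μ) (2 * (4 * L * C.card + 12 * q0 / ρ)) := by
  classical
  have t0 := tw_pos hd
  have hρ0 : 0 < ρ := by linarith
  have hL0 : 0 ≤ L := le_trans (by positivity) hL
  have hadm : ∀ p, 1 ≤ XF b p → (XF b p : ℝ) ≤ 2 * ρ → |slope b p| ≤ tw b c / 2 → Adm b c R p :=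
    fun p a1 a2 a3 => (adm_iff hd R p).2 ⟨a1, by exact_mod_cast a2.trans hρR, by linarith⟩
  have hp : ∀ θ, ∃ p : ℤ × ℤ, 0 < QF b c p ∧ (|θ| ≤ tw b c / 8 → θ ∉ Bad φ b C L ρ q0 →
      1 ≤ XF b p ∧ (XF b p : ℝ) ≤ 2 * ρ ∧ |slope b p| ≤ tw b c / 2 ∧ |φ (slope b p) - θ| ≤ L) := by
    intro θ
    by_cases h : |θ| ≤ tw b c / 8 ∧ θ ∉ Bad φ b C L ρ q0
    · obtain ⟨p, a1, a2, a3, a4⟩ := near_pt hd hφ hρ hq hL hL' h.1 h.2
      exact ⟨p, (hadm p a1 a2 a3).pos hd, fun _ _ => ⟨a1, a2, a3, a4⟩⟩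
    · exact ⟨(1, 0), by simp [QF], fun a a' => absurd ⟨a, a'⟩ h⟩
  choose p p0 hp using hp
  refine ⟨fun θ => f (QF b c (p θ)), fun θ => ?_, fun μ hμ t ht => ?_⟩
  · rcases h1 _ (p0 θ) with h | h <;> simp [h]
  have v1 := vol_bad φ b C hL0 hρ0 hq.le
  have v2 := v1
  rw [← measure_preimage_add_right volume (ang φ μ + t)] at v2
  unfold Good
  rw [two_mul, ENNReal.ofReal_add (by positivity) (by positivity)]
  refine le_trans (measure_mono ?_) ((measure_union_le _ _).trans (add_le_add v1 v2))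
  rintro θ ⟨g1, g2, g3⟩
  by_contra g4
  simp only [Set.mem_union, Set.mem_preimage, not_or] at g4
  obtain ⟨a1, a2, a3, a4⟩ := hp θ g1 g4.1
  obtain ⟨b1, b2, b3, b4⟩ := hp _ g2 g4.2
  obtain ⟨p2, c1, c2, c3⟩ := mul_step f hm hd hφ hμ a1 a2 a3
  refine g3 ((same f hm h1 hd hφ hC g4.2 (hadm _ b1 b2 b3) c1 (by linarith) ?_).trans c3)
  rw [c2, show φ (slope b (p θ)) + ang φ μ - (θ + (ang φ μ + t)) = φ (slope b (p θ)) - θ - t by ring]
  linarith [abs_sub (φ (slope b (p θ)) - θ) t]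

theorem core_pos (f : ℤ → ℤ) (h1 : ∀ a, 0 < a → f a = 1 ∨ f a = -1)
    (hd : 4 * c - b ^ 2 ≠ 0) (hφ : Ang (4 * (c : ℝ) - b ^ 2) φ) {C : Finset (ℤ × ℤ)} {R : ℤ}
    (hC : ∀ p q, Adm b c R p → Adm b c R q → det p q = 1 → f (QF b c p) * f (QF b c q) = 1 →
      p ∈ C ∨ q ∈ C)
    {L ρ q0 : ℝ} (hρ : 2 ≤ ρ) (hρR : 16 * ρ ≤ R) (hq : 0 < q0) (hL : 2 / (q0 * ρ) ≤ L)
    (hL' : L ≤ tw b c / 2) : tw b c / 8 ≤ 4 * L * C.card + 12 * q0 / ρ := by
  by_contra hc
  have t0 := tw_pos hd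
  have t1 := tw_le hd
  have hρ0 : 0 < ρ := by linarith
  have hL0 : 0 ≤ L := le_trans (by positivity) hL
  obtain ⟨θ, hθ, hB⟩ := avoid _ _ (tw b c / 16) (by positivity)
    (vol_bad φ b C hL0 hρ0 hq.le) 0 (fun _ => 0) (by push_cast; linarith)
  have hB0 : θ ∉ Bad φ b C L ρ q0 := by simpa using hB 0 le_rfl
  obtain ⟨t, ht, rfl⟩ := surj' hφ (τ := tw b c / 4) (θ := θ) (by linarith)
  have hR : (32 : ℝ) ≤ R := by linarith
  have hR' : 32 ≤ R := by exact_mod_cast hR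
  obtain ⟨p, q, e1, a1, a2, a3, a4, a5, a6, a7⟩ := farey b t (by linarith) (R / 2) (by omega)
  have hXp : (1 : ℝ) ≤ XF b p := by exact_mod_cast a1
  have hXq : (1 : ℝ) ≤ XF b q := by exact_mod_cast a3
  have e2 : (XF b p : ℝ) * q.2 - XF b q * p.2 = 2 := by
    have : XF b p * q.2 - XF b q * p.2 = 2 := by
      unfold det at e1; unfold XF; linear_combination 2 * e1
    exact_mod_cast this
  have sp : slope b p ≤ t := by unfold slope; rwa [div_le_iff₀ (by linarith)]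
  have sq : t ≤ slope b q := by unfold slope; rwa [le_div_iff₀ (by linarith)]
  have e3 : slope b q - slope b p = 2 / (XF b p * XF b q) := by
    unfold slope; rw [← e2]; field_simp
  -- a point with small first coordinate would put the angle in the bad set
  have small : ∀ r : ℤ × ℤ, 1 ≤ XF b r → |slope b r - t| ≤ 1 / (2 * XF b r * ρ) → q0 < XF b r := by
    intro r hr h2
    by_contra hc
    obtain ⟨k, hk⟩ := Int.eq_ofNat_of_zero_le (show 0 ≤ XF b r by omega)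
    have hk1 : (1 : ℝ) ≤ k := by rw [hk] at hr; exact_mod_cast hr
    have hs : slope b r = (r.2 : ℝ) / k := by unfold slope; rw [hk]; norm_cast
    rw [hk] at hc h2
    push_cast at hc h2
    refine hB0 (Or.inr (Set.mem_biUnion (x := k)
      (mem_coe.2 (mem_Icc.2 ⟨by exact_mod_cast hk1, Nat.le_floor (not_lt.1 hc)⟩))
      (Set.mem_biUnion (x := r.2) (mem_coe.2 (mem_Icc.2 (abs_le.1 ?_))) ?_)))
    · have h4 : 1 / (2 * k * ρ) ≤ 1 / 2 := one_div_le_one_div_of_le (by norm_num) (by nlinarith)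
      have h5 : |(r.2 : ℝ) / k| ≤ 1 := by
        have := abs_add_le (slope b r - t) t
        rw [sub_add_cancel, hs] at this
        rw [hs] at h2
        linarith
      rw [abs_div, abs_of_pos (show (0 : ℝ) < k by linarith), div_le_one (by linarith)] at h5
      exact_mod_cast h5
    · rw [mem_closedBall, Real.dist_eq, abs_sub_comm, ← hs]
      have h6 := (hφ.abs_le t (slope b r)).2
      have h7 : 2 * (1 / (2 * k * ρ)) ≤ 2 / (k * ρ) := by
        rw [mul_one_div]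
        exact div_le_div_of_nonneg_left (by norm_num) (by positivity) (by nlinarith)
      linarith
  have hgap : slope b q - slope b p ≤ L / 2 := by
    have h8 : (R : ℝ) ≤ 2 * (XF b p + XF b q) := by
      have : R ≤ 2 * (XF b p + XF b q) := by omega
      exact_mod_cast this
    have h9 : ∀ x y : ℝ, 1 ≤ x → 4 * ρ ≤ y → 2 / (x * y) ≤ 1 / (2 * x * ρ) := by
      intro x y hx hy
      rw [div_le_div_iff₀ (by nlinarith) (by positivity)]
      nlinarith
    have h10 : ∀ x : ℝ, q0 < x → 1 / (2 * x * ρ) ≤ L / 2 := by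
      intro x hx
      have : 1 / (2 * x * ρ) ≤ 1 / (q0 * ρ) := one_div_le_one_div_of_le (by positivity) (by nlinarith)
      have h7 : 2 / (q0 * ρ) = 2 * (1 / (q0 * ρ)) := by ring
      linarith
    rcases le_total (XF b p : ℝ) (XF b q) with h | h
    · have := h9 _ _ hXp (show 4 * ρ ≤ XF b q by linarith)
      rw [← e3] at this
      exact this.trans (h10 _ (small p a1 (abs_le.2 ⟨by linarith, by linarith⟩)))
    · have := h9 _ _ hXq (show 4 * ρ ≤ XF b p by linarith)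
      rw [mul_comm, ← e3] at this
      exact this.trans (h10 _ (small q a3 (abs_le.2 ⟨by linarith, by linarith⟩)))
  have hXr : XF b (p + q) = XF b p + XF b q := by simp only [XF, Prod.fst_add, Prod.snd_add]; ring
  have good : ∀ r : ℤ × ℤ, 1 ≤ XF b r → XF b r ≤ R → slope b p ≤ slope b r → slope b r ≤ slope b q →
      Adm b c R r ∧ r ∉ C := by
    intro r b1 b2 b3 b4
    have h2 : |slope b r - t| ≤ L / 2 := abs_le.2 ⟨by linarith, by linarith⟩
    refine ⟨(adm_iff hd R r).2 ⟨b1, b2, ?_⟩, fun hr => hB0 (Or.inl (Set.mem_biUnion (mem_coe.2 hr) ?_))⟩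
    · have := abs_add_le (slope b r - t) t
      rw [sub_add_cancel] at this
      linarith
    · rw [mem_closedBall, Real.dist_eq, abs_sub_comm]
      linarith [(hφ.abs_le t (slope b r)).2]
  obtain ⟨gp, np⟩ := good p a1 (by omega) le_rfl (sp.trans sq)
  obtain ⟨gq, nq⟩ := good q a3 (by omega) (sp.trans sq) le_rfl
  obtain ⟨gr, nr⟩ := good (p + q) (by omega) (by omega)
    (by
      unfold slope
      rw [hXr, Prod.snd_add, div_le_div_iff₀ (by linarith) (by push_cast; linarith)]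
      push_cast; linarith)
    (by
      unfold slope
      rw [hXr, Prod.snd_add, div_le_div_iff₀ (by push_cast; linarith) (by linarith)]
      push_cast; linarith)
  have d1 : det p (p + q) = 1 := by rw [← e1]; simp only [det, Prod.fst_add, Prod.snd_add]; ring
  have d2 : det (p + q) q = 1 := by rw [← e1]; simp only [det, Prod.fst_add, Prod.snd_add]; ring
  have k1 := hC p q gp gq e1
  have k2 := hC p (p + q) gp gr d1
  have k3 := hC (p + q) q gr gq d2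
  rcases h1 _ (gp.pos hd) with h | h <;> rcases h1 _ (gq.pos hd) with h' | h' <;>
    rcases h1 _ (gr.pos hd) with h'' | h'' <;> simp_all

end Pool.Agent.P.MP_192724_nt.H3
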