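import Pool.Agent.P.MP_192724_nt.H3.Sail

/-! First moment of the divisor function on primitive values of the form. -/

set_option autoImplicit false

namespace Pool.Agent.P.MP_192724_nt.H3

open Finset

/-- Number of positive divisors of `|z|`. -/
def tau (z : ℤ) : ℕ := z.natAbs.divisors.card

theorem tau_mul_le (a b : ℤ) : tau (a * b) ≤ tau a * tau b := by
  unfold tau
  rw [Int.natAbs_mul, Nat.divisors_mul]
  exact Finset.card_mul_le

theorem cnt_mod (U : Finset ℤ) (m R : ℤ) (hm : 0 < m) (hR : 0 ≤ R)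
    (h : ∀ x ∈ U, ∀ x' ∈ U, x - x' ≤ R ∧ m ∣ x - x') : (U.card : ℝ) ≤ R / m + 1 := by
  have hm' : (0 : ℝ) < m := by exact_mod_cast hm
  have hR' : (0 : ℝ) ≤ R := by exact_mod_cast hR
  rcases U.eq_empty_or_nonempty with rfl | hne
  · simp only [card_empty, Nat.cast_zero]; positivity
  have hsub : U ⊆ (Icc 0 (R / m)).image fun i => U.min' hne + m * i := by
    intro x hx
    obtain ⟨h1, i, hi⟩ := h x hx _ (U.min'_mem hne)
    have h2 := U.min'_le x hx
    refine mem_image.2 ⟨i, mem_Icc.2 ⟨?_, ?_⟩, by linarith⟩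
    · by_contra hc
      nlinarith
    · exact Int.le_ediv_of_mul_le hm (by linarith)
  have h3 := (card_le_card hsub).trans card_image_le
  rw [Int.card_Icc] at h3
  have h4 : 0 ≤ R / m := Int.ediv_nonneg hR hm.le
  have h5 : ((R / m : ℤ) : ℝ) ≤ R / m := by
    rw [le_div_iff₀ hm']; exact_mod_cast Int.ediv_mul_le R hm.ne'
  have h6 : (U.card : ℤ) ≤ R / m + 1 := by omega
  have h7 : (U.card : ℝ) ≤ ((R / m : ℤ) : ℝ) + 1 := by exact_mod_cast h6
  linarith

theorem roots (b c y : ℤ) (hd : 4 * c - b ^ 2 ≠ 0) (k : ℕ) (R : ℤ) (hk : 1 ≤ k) (hkR : (k : ℤ) ≤ R)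
    (U : Finset ℤ) (hU : ∀ x ∈ U, IsCoprime x y ∧ (k : ℤ) ∣ QF b c (x, y))
    (hUR : ∀ x ∈ U, ∀ x' ∈ U, x - x' ≤ R) :
    (U.card : ℝ) ≤ k.divisors.card * ((|4 * (c : ℝ) - b ^ 2| + 1) * R / k) := by
  have hk' : (0 : ℝ) < k := by exact_mod_cast hk
  have hkR' : (k : ℝ) ≤ R := by exact_mod_cast hkR
  have hR' : (0 : ℝ) < R := by linarith
  rcases U.eq_empty_or_nonempty with rfl | ⟨x0, hx0⟩
  · simp only [card_empty, Nat.cast_zero]; positivity
  rw [card_eq_sum_card_fiberwise (f := fun x : ℤ => Nat.gcd k (x - x0).natAbs) (t := k.divisors)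
    (fun x _ => mem_coe.2 (Nat.mem_divisors.2 ⟨Nat.gcd_dvd_left _ _, by omega⟩))]
  push_cast
  rw [← nsmul_eq_mul]
  refine sum_le_card_nsmul _ _ _ fun k1 hk1 => ?_
  obtain ⟨k2, hk2⟩ := Nat.dvd_of_mem_divisors hk1
  have hk1p : 0 < k1 := Nat.pos_of_mem_divisors hk1
  have hk2p : 0 < k2 := by
    rcases Nat.eq_zero_or_pos k2 with h | h
    · rw [h] at hk2; omega
    · exact h
  have hfib : ∀ x ∈ U.filter (fun x : ℤ => Nat.gcd k (x - x0).natAbs = k1),
      (k1 : ℤ) ∣ x - x0 ∧ (k2 : ℤ) ∣ x + x0 + b * y := by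
    intro x hx
    obtain ⟨hxU, hg⟩ := mem_filter.1 hx
    refine ⟨Int.natCast_dvd.2 (hg ▸ Nat.gcd_dvd_right _ _), Int.natCast_dvd.2 ?_⟩
    have h1 : (k : ℤ) ∣ (x - x0) * (x + x0 + b * y) := by
      exact (dvd_sub (hU x hxU).2 (hU x0 hx0).2).trans (dvd_of_eq (by unfold QF; ring))
    have h2 := Int.natCast_dvd.1 h1
    rw [Int.natAbs_mul] at h2
    have h3 := dvd_gcd_mul_of_dvd_mul h2
    rw [gcd_eq_nat_gcd, hg, hk2] at h3
    exact Nat.dvd_of_mul_dvd_mul_left hk1p h3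
  rcases (U.filter (fun x : ℤ => Nat.gcd k (x - x0).natAbs = k1)).eq_empty_or_nonempty with
    he | ⟨x1, hx1⟩
  · rw [he]; simp only [card_empty, Nat.cast_zero]; positivity
  have hg : ((Nat.gcd k1 k2 : ℕ) : ℤ) ≤ |4 * c - b ^ 2| := by
    set g : ℤ := ((Nat.gcd k1 k2 : ℕ) : ℤ) with hgdef
    have g1 : g ∣ (k1 : ℤ) := Int.natCast_dvd_natCast.2 (Nat.gcd_dvd_left _ _)
    have g2 : g ∣ (k2 : ℤ) := Int.natCast_dvd_natCast.2 (Nat.gcd_dvd_right _ _)
    have g3 : g ∣ XF b (x0, y) := by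
      exact (dvd_sub (g2.trans (hfib x1 hx1).2) (g1.trans (hfib x1 hx1).1)).trans
        (dvd_of_eq (by unfold XF; ring))
    have g4 : g * g ∣ QF b c (x0, y) := by
      refine (mul_dvd_mul g1 g2).trans ?_
      have := (hU x0 hx0).2
      rwa [hk2, Nat.cast_mul] at this
    have g5 : g * g ∣ (4 * c - b ^ 2) * (y * y) := by
      have := dvd_sub (g4.mul_left 4) (mul_dvd_mul g3 g3)
      rw [four_QF] at this
      exact this.trans (dvd_of_eq (by ring))
    have g6 : IsCoprime g y := by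
      have h1 : IsCoprime (x0 ^ 2 + y * (b * x0 + c * y)) y :=
        ((hU x0 hx0).1.pow_left).add_mul_left_left _
      refine h1.of_isCoprime_of_dvd_left ?_
      exact ((dvd_mul_right g g).trans g4).trans (dvd_of_eq (by unfold QF; ring))
    have g7 : g * g ∣ 4 * c - b ^ 2 :=
      ((g6.mul_left g6).mul_right (g6.mul_left g6)).dvd_of_dvd_mul_right g5
    exact Int.le_of_dvd (abs_pos.2 hd) ((dvd_abs _ _).2 ((dvd_mul_right g g).trans g7))
  have hl : 0 < Nat.lcm k1 k2 := Nat.lcm_pos hk1p hk2p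
  have h1 := cnt_mod (U.filter (fun x : ℤ => Nat.gcd k (x - x0).natAbs = k1)) (Nat.lcm k1 k2 : ℕ) R
    (by exact_mod_cast hl) (by omega) (fun x hx x' hx' =>
      ⟨hUR x (mem_filter.1 hx).1 x' (mem_filter.1 hx').1, by
        refine Int.natCast_dvd.2 (Nat.lcm_dvd (Int.natCast_dvd.1 ?_) (Int.natCast_dvd.1 ?_))
        · exact (dvd_sub (hfib x hx).1 (hfib x' hx').1).trans (dvd_of_eq (by ring))
        · exact (dvd_sub (hfib x hx).2 (hfib x' hx').2).trans (dvd_of_eq (by ring))⟩)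
  refine h1.trans ?_
  have hg' : ((Nat.gcd k1 k2 : ℕ) : ℝ) ≤ |4 * (c : ℝ) - b ^ 2| := by exact_mod_cast hg
  have hgl : ((Nat.gcd k1 k2 : ℕ) : ℝ) * (Nat.lcm k1 k2 : ℕ) = k := by
    rw [hk2]; exact_mod_cast Nat.gcd_mul_lcm k1 k2
  have hl' : (0 : ℝ) < (Nat.lcm k1 k2 : ℕ) := by exact_mod_cast hl
  have h2 : (R : ℝ) / (Nat.lcm k1 k2 : ℕ) ≤ |4 * (c : ℝ) - b ^ 2| * R / k := by
    rw [div_le_div_iff₀ hl' hk', ← hgl]
    have := mul_le_mul_of_nonneg_right hg' (mul_pos hR' hl').le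
    nlinarith
  have h3 : (1 : ℝ) ≤ R / k := by rw [le_div_iff₀ hk']; linarith
  push_cast
  calc (R : ℝ) / (Nat.lcm k1 k2 : ℕ) + 1 ≤ |4 * (c : ℝ) - b ^ 2| * R / k + R / k := by linarith
    _ = _ := by ring

theorem tau_le_small (N : ℤ) (R : ℕ) (hN : 0 < N) (hNR : N ≤ (R : ℤ) ^ 2) :
    tau N ≤ 2 * ((Icc 1 R).filter fun k : ℕ => (k : ℤ) ∣ N).card := by
  unfold tau
  obtain ⟨n, rfl⟩ := Int.eq_ofNat_of_zero_le hN.le
  have hn : 0 < n := by exact_mod_cast hN
  have hnR : n ≤ R ^ 2 := by exact_mod_cast hNR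
  simp only [Int.natAbs_natCast, Int.natCast_dvd_natCast]
  set A := (Icc 1 R).filter fun k : ℕ => k ∣ n
  have hsub : n.divisors ⊆ A ∪ A.image fun k => n / k := by
    intro k hk
    obtain ⟨l, hl⟩ := Nat.dvd_of_mem_divisors hk
    have hk0 : 0 < k := Nat.pos_of_mem_divisors hk
    have hl0 : 0 < l := by
      rcases Nat.eq_zero_or_pos l with h | h
      · rw [h] at hl; omega
      · exact h
    by_cases h : k ≤ R
    · exact mem_union_left _ (mem_filter.2 ⟨mem_Icc.2 ⟨hk0, h⟩, l, hl⟩)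
    · refine mem_union_right _ (mem_image.2 ⟨l, mem_filter.2 ⟨mem_Icc.2 ⟨hl0, ?_⟩, k, by
        rw [hl, mul_comm]⟩, by rw [hl, Nat.mul_div_cancel _ hl0]⟩)
      by_contra hc
      nlinarith
  have := (card_le_card hsub).trans (card_union_le _ _)
  have h2 := card_image_le (s := A) (f := fun k => n / k)
  omega

theorem harm (R : ℕ) : ∑ k ∈ Icc 1 R, (1 : ℝ) / k ≤ 1 + Real.log R := by
  have := harmonic_le_one_add_log R
  rw [harmonic_eq_sum_Icc] at this
  push_cast at this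
  simpa [one_div] using this

theorem sum_tau_div (R : ℕ) :
    ∑ k ∈ Icc 1 R, (k.divisors.card : ℝ) / k ≤ (1 + Real.log R) ^ 2 := by
  have h0 : 0 ≤ ∑ k ∈ Icc 1 R, (1 : ℝ) / k := sum_nonneg fun k _ => by positivity
  calc ∑ k ∈ Icc 1 R, (k.divisors.card : ℝ) / k
      = ∑ k ∈ Icc 1 R, ∑ a ∈ Icc 1 R, if a ∣ k then (1 : ℝ) / k else 0 := by
        refine sum_congr rfl fun k hk => ?_
        have hk' := mem_Icc.1 hk
        have : k.divisors = (Icc 1 R).filter fun a => a ∣ k := by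
          ext a
          simp only [Nat.mem_divisors, mem_filter, mem_Icc]
          exact ⟨fun h => ⟨⟨Nat.pos_of_dvd_of_pos h.1 hk'.1, (Nat.le_of_dvd hk'.1 h.1).trans hk'.2⟩, h.1⟩,
            fun h => ⟨h.2, by omega⟩⟩
        rw [← sum_filter, ← this, sum_const, nsmul_eq_mul, mul_one_div]
    _ = ∑ a ∈ Icc 1 R, ∑ k ∈ (Icc 1 R).filter (fun k => a ∣ k), (1 : ℝ) / k := by
        rw [sum_comm]; exact sum_congr rfl fun a _ => (sum_filter _ _).symm
    _ ≤ ∑ a ∈ Icc 1 R, (1 : ℝ) / a * ∑ k ∈ Icc 1 R, (1 : ℝ) / k := by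
        refine sum_le_sum fun a ha => ?_
        have ha' := mem_Icc.1 ha
        have hsub : (Icc 1 R).filter (fun k => a ∣ k) ⊆ (Icc 1 R).image fun l => a * l := by
          intro k hk
          obtain ⟨hk1, l, hl⟩ := mem_filter.1 hk
          have hk' := mem_Icc.1 hk1
          refine mem_image.2 ⟨l, mem_Icc.2 ⟨?_, ?_⟩, hl.symm⟩
          · rcases Nat.eq_zero_or_pos l with h | h
            · rw [h] at hl; omega
            · exact h
          · nlinarith [hk'.2, ha'.1]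
        refine (sum_le_sum_of_subset_of_nonneg hsub fun k _ _ => by positivity).trans ?_
        rw [sum_image fun x _ y _ h => Nat.eq_of_mul_eq_mul_left ha'.1 h, mul_sum]
        refine le_of_eq (sum_congr rfl fun l _ => ?_)
        push_cast
        rw [one_div_mul_one_div]
    _ = (∑ k ∈ Icc 1 R, (1 : ℝ) / k) ^ 2 := by rw [← sum_mul, sq]
    _ ≤ _ := pow_le_pow_left₀ h0 (harm R) 2

/-- Admissible lattice points: a narrow truncated cone. -/
def Adm (b c R : ℤ) (p : ℤ × ℤ) : Prop :=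
  1 ≤ XF b p ∧ XF b p ≤ R ∧ 8 * |4 * c - b ^ 2| * |p.2| ≤ XF b p

theorem Adm.bounds {b c R : ℤ} {p : ℤ × ℤ} (hd : 4 * c - b ^ 2 ≠ 0) (h : Adm b c R p) :
    15 * XF b p ^ 2 ≤ 64 * QF b c p ∧ 64 * QF b c p ≤ 17 * XF b p ^ 2 ∧ 8 * |p.2| ≤ XF b p := by
  obtain ⟨h1, -, h3⟩ := h
  have hD : 1 ≤ |4 * c - b ^ 2| := Int.one_le_abs hd
  have h4 := four_QF b c p
  have h5 : |(4 * c - b ^ 2) * p.2 ^ 2| = |4 * c - b ^ 2| * |p.2| ^ 2 := by rw [abs_mul, abs_pow]
  have h6 := abs_le.1 h5.le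
  have hy := abs_nonneg p.2
  generalize |4 * c - b ^ 2| = D at *
  generalize |p.2| = Y at *
  have h7 : 8 * Y ≤ XF b p := by nlinarith
  have h8 : (8 * D * Y) * (8 * Y) ≤ XF b p * XF b p := mul_le_mul h3 h7 (by positivity) (by linarith)
  refine ⟨by nlinarith [h6.1], by nlinarith [h6.2], h7⟩

theorem Adm.pos {b c R : ℤ} {p : ℤ × ℤ} (hd : 4 * c - b ^ 2 ≠ 0) (h : Adm b c R p) :
    0 < QF b c p := by
  have := (h.bounds hd).1
  nlinarith [h.1]

theorem first_moment (b c : ℤ) (hd : 4 * c - b ^ 2 ≠ 0) (R : ℕ) (hR : 1 ≤ R) (V : Finset (ℤ × ℤ))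
    (hV : ∀ p ∈ V, Adm b c R p ∧ IsCoprime p.1 p.2) :
    (∑ p ∈ V, (tau (QF b c p) : ℝ)) ≤
      6 * (|4 * (c : ℝ) - b ^ 2| + 1) * R ^ 2 * (1 + Real.log R) ^ 2 := by
  have hR' : (1 : ℝ) ≤ R := by exact_mod_cast hR
  calc (∑ p ∈ V, (tau (QF b c p) : ℝ))
      ≤ ∑ p ∈ V, 2 * ∑ k ∈ Icc 1 R, if (k : ℤ) ∣ QF b c p then (1 : ℝ) else 0 := by
        refine sum_le_sum fun p hp => ?_
        have h1 := (hV p hp).1
        have h2 := tau_le_small (QF b c p) R (h1.pos hd) (by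
          have := (h1.bounds hd).2.1
          have h3 : XF b p ^ 2 ≤ (R : ℤ) ^ 2 := pow_le_pow_left₀ (by linarith [h1.1]) h1.2.1 2
          nlinarith [sq_nonneg (R : ℤ)])
        rw [← sum_filter, sum_const, nsmul_eq_mul, mul_one]
        exact_mod_cast h2
    _ = 2 * ∑ k ∈ Icc 1 R, ((V.filter fun p => (k : ℤ) ∣ QF b c p).card : ℝ) := by
        rw [← mul_sum, sum_comm]
        congr 1
        exact sum_congr rfl fun k _ => by rw [← sum_filter, sum_const, nsmul_eq_mul, mul_one]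
    _ ≤ 2 * ∑ k ∈ Icc 1 R, (3 * (|4 * (c : ℝ) - b ^ 2| + 1) * R ^ 2) * ((k.divisors.card : ℝ) / k) := by
        refine mul_le_mul_of_nonneg_left (sum_le_sum fun k hk => ?_) (by norm_num)
        have hk' := mem_Icc.1 hk
        rw [card_eq_sum_card_fiberwise (f := fun p : ℤ × ℤ => p.2) (t := Icc (-(R : ℤ)) R)
          (fun p hp => by
            have h1 := (hV p (mem_filter.1 hp).1).1
            have h2 := (h1.bounds hd).2.2
            have h3 := h1.2.1
            have h4 := abs_nonneg p.2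
            simp only [coe_Icc, Set.mem_Icc]
            exact abs_le.1 (by linarith))]
        push_cast
        refine (sum_le_card_nsmul _ _ ((k.divisors.card : ℝ) * ((|4 * (c : ℝ) - b ^ 2| + 1) * R / k))
          fun y _ => ?_).trans ?_
        · rw [← card_image_of_injOn (f := fun p : ℤ × ℤ => p.1) (fun p hp q hq h => by
            have h1 := (mem_filter.1 (mem_coe.1 hp)).2
            have h2 := (mem_filter.1 (mem_coe.1 hq)).2
            exact Prod.ext h (h1.trans h2.symm))]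
          refine roots b c y hd k R hk'.1 (by exact_mod_cast hk'.2) _ (fun x hx => ?_)
            fun x hx x' hx' => ?_
          · obtain ⟨p, hp, rfl⟩ := mem_image.1 hx
            obtain ⟨hp1, rfl⟩ := mem_filter.1 hp
            exact ⟨(hV p (mem_filter.1 hp1).1).2, (mem_filter.1 hp1).2⟩
          · obtain ⟨p, hp, rfl⟩ := mem_image.1 hx
            obtain ⟨hp1, rfl⟩ := mem_filter.1 hp
            obtain ⟨q, hq, rfl⟩ := mem_image.1 hx'
            obtain ⟨hq1, hq2⟩ := mem_filter.1 hq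
            have h1 := (hV p (mem_filter.1 hp1).1).1
            have h2 := (hV q (mem_filter.1 hq1).1).1
            have h3 := h1.2.1
            have h4 := h2.1
            simp only [XF, hq2] at h3 h4
            omega
        · rw [Int.card_Icc, nsmul_eq_mul]
          have h1 : (((R : ℤ) + 1 - -(R : ℤ)).toNat : ℝ) ≤ 3 * R := by
            have : ((R : ℤ) + 1 - -(R : ℤ)).toNat ≤ 3 * R := by omega
            exact_mod_cast this
          calc _ ≤ (3 * (R : ℝ)) * (k.divisors.card * ((|4 * (c : ℝ) - b ^ 2| + 1) * R / k)) :=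
                mul_le_mul_of_nonneg_right h1 (by positivity)
            _ = _ := by ring
    _ ≤ _ := by
        rw [← mul_sum]
        have := mul_le_mul_of_nonneg_left (sum_tau_div R)
          (show (0 : ℝ) ≤ 3 * (|4 * (c : ℝ) - b ^ 2| + 1) * R ^ 2 by positivity)
        linarith

end Pool.Agent.P.MP_192724_nt.H3
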