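import Pool.Agent.P.MP_192724_nt.H3.Chain

/-! Choice of parameters and the final counting bound. -/

set_option autoImplicit false

namespace Pool.Agent.P.MP_192724_nt.H3

open Finset Filter

theorem fin_ineq {D L κ R n N H : ℝ} (hD : 1 ≤ D) (hL : 1 ≤ L) (hκ : 1 ≤ κ) (hR : 0 < R)
    (hH : H ^ 2 ≤ 4 * κ ^ 2)
    (h1 : 1 ≤ 4 * L ^ 4 * (2 * (4 * (25600 * L ^ 6 / R ^ 2) * n +
      12 * (R / (8 * L) / (200 * L ^ 4)) / (R / (8 * L)))))
    (h2 : n ≤ (80000000 * (D + 1) * L ^ 10 * κ ^ 2) ^ 2 * N +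
      6 * (D + 1) * R ^ 2 * H ^ 2 / (80000000 * (D + 1) * L ^ 10 * κ ^ 2)) :
    R ^ 2 ≤ 3200000 * L ^ 10 * (80000000 * (D + 1) * L ^ 10 * κ ^ 2) ^ 2 * N := by
  have hL0 : 0 < L := by linarith
  have hκ0 : 0 < κ := by linarith
  have e : 4 * L ^ 4 * (2 * (4 * (25600 * L ^ 6 / R ^ 2) * n +
      12 * (R / (8 * L) / (200 * L ^ 4)) / (R / (8 * L)))) = 819200 * L ^ 10 * n / R ^ 2 + 12 / 25 := by
    field_simp; ring
  rw [e, ← sub_le_iff_le_add, le_div_iff₀ (by positivity)] at h1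
  have h8 : 6 * (D + 1) * R ^ 2 * H ^ 2 / (80000000 * (D + 1) * L ^ 10 * κ ^ 2) ≤
      R ^ 2 / (3200000 * L ^ 10) := by
    rw [div_le_div_iff₀ (by positivity) (by positivity)]
    have := mul_le_mul_of_nonneg_left hH (show 0 ≤ 19200000 * (D + 1) * R ^ 2 * L ^ 10 by positivity)
    have h3 : 0 ≤ (D + 1) * R ^ 2 * L ^ 10 * κ ^ 2 := by positivity
    linarith
  have h9 := mul_le_mul_of_nonneg_left (h2.trans (add_le_add_right h8 _))
    (show 0 ≤ 1600000 * L ^ 10 by positivity)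
  have e4 : 1600000 * L ^ 10 * (R ^ 2 / (3200000 * L ^ 10)) = R ^ 2 / 2 := by field_simp; ring
  rw [mul_add, e4] at h9
  linarith [sq_nonneg R]

theorem lam_pos_mul : ∀ a a' : ℤ, 0 < a → 0 < a' → lam (a * a') = lam a * lam a' :=
  fun _ _ h h' => lam_mul h.ne' h'.ne'

theorem count_lower (b c : ℤ) (hd : 4 * c - b ^ 2 ≠ 0) :
    ∃ K : ℝ, 0 < K ∧ ∀ σ : ℤ, σ = 1 ∨ σ = -1 → ∀ k R : ℕ, 1 ≤ k → 1 ≤ R → R ^ 2 ≤ 2 ^ k →
      (R : ℝ) ^ 2 ≤ K * k ^ 184 * ((Lab lam b c R σ).card + 1) := by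
  have d1 := one_le_D hd
  obtain ⟨Dn, eD⟩ : ∃ Dn : ℕ, |4 * (c : ℝ) - b ^ 2| = (Dn : ℝ) :=
    ⟨(4 * c - b ^ 2).natAbs, by simp⟩
  have Dn1 : 1 ≤ Dn := by rw [eD] at d1; exact_mod_cast d1
  obtain ⟨m0, hb, hb'⟩ := exists_large hd (256 * Dn)
  obtain ⟨A, hA⟩ := exists_ang d1
  obtain ⟨η, η0, η1, hη⟩ := exists_hankel d1
  obtain ⟨c₀, hc₀⟩ := exists_nat_ge (128 * Real.exp 129 / η ^ 2 + 256 * |4 * (c : ℝ) - b ^ 2| / η)
  obtain ⟨u, hu⟩ : ∃ u, u = 16384 * Dn + m0 + c₀ := ⟨_, rfl⟩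
  have u0 : (0 : ℝ) < u := by exact_mod_cast (show 0 < u by omega)
  refine ⟨3200000 * (80000000 * (Dn + 1)) ^ 2 * u ^ 30 + 409600 * Dn * u ^ 6, by positivity,
    fun σ hσ k R hk hR h2 => ?_⟩
  obtain ⟨γ, h, g1, g2, g3, g4, g5, g6⟩ := hη k _ hk rfl
  have l0 : 1 ≤ k ^ 6 := Nat.one_le_pow _ _ hk
  have l1 : u ≤ u * k ^ 6 := Nat.le_mul_of_pos_right _ l0
  have l2 : 16384 * k ^ 6 ≤ u * k ^ 6 := Nat.mul_le_mul_right _ (by omega)
  have l4 : k ^ 3 ≤ k ^ 6 := Nat.pow_le_pow_right hk (by norm_num)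
  have l5 : k ^ 4 ≤ k ^ 6 := Nat.pow_le_pow_right hk (by norm_num)
  have l6 : (1 : ℝ) ≤ (k : ℝ) ^ 6 := by exact_mod_cast l0
  have l7 : (257 * |4 * (c : ℝ) - b ^ 2| + c₀) * (k : ℝ) ^ 6 ≤ (u * k ^ 6 : ℕ) := by
    rw [eD]
    exact_mod_cast Nat.mul_le_mul_right _ (by omega : 257 * Dn + c₀ ≤ u)
  obtain ⟨M, y5, y6, y7, y8⟩ := exists_M d1 η0 η1 hc₀ l6 l7 Dn eD
  obtain ⟨L, hL⟩ : ∃ L, L = u * k ^ 6 := ⟨_, rfl⟩
  have hL' : (L : ℝ) = u * k ^ 6 := by rw [hL]; push_cast; rfl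
  rw [← hL] at l1 l2 y7 y8
  have r1 : (1 : ℝ) ≤ L := by exact_mod_cast (show 1 ≤ L by omega)
  have r3 : 16384 * (Dn : ℝ) ≤ L := by exact_mod_cast (show 16384 * Dn ≤ L by omega)
  have D1 : (1 : ℝ) ≤ Dn := by exact_mod_cast Dn1
  have k1 : (1 : ℝ) ≤ k := by exact_mod_cast hk
  have hR' : (1 : ℝ) ≤ R := by exact_mod_cast hR
  have hR0 : (0 : ℝ) < R := by linarith
  have hS : (0 : ℝ) ≤ (Lab lam b c R σ).card := by positivity
  by_cases hbig : (R : ℝ) ^ 2 < 409600 * Dn * L ^ 6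
  · have a1 : (k : ℝ) ^ 36 ≤ k ^ 184 := pow_le_pow_right₀ k1 (by norm_num)
    have a2 := mul_le_mul_of_nonneg_left a1 (show (0 : ℝ) ≤ 409600 * Dn * u ^ 6 by positivity)
    have a3 : (0 : ℝ) ≤ 3200000 * (80000000 * (Dn + 1)) ^ 2 * u ^ 30 * k ^ 184 := by positivity
    refine le_trans ?_ (le_mul_of_one_le_right (by positivity) (by linarith only [hS]))
    rw [hL'] at hbig
    linarith only [hbig, a2, a3]
  push Not at hbig
  obtain ⟨C, hC1, hC2⟩ := centers lam lam_pos_mul b c hd R hR σ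
    (80000000 * (Dn + 1) * L ^ 10 * k ^ 2) (by positivity)
  have L4 : (L : ℝ) ≤ L ^ 4 := le_self_pow₀ r1 (by norm_num)
  have hρ0 : (0 : ℝ) < R / (8 * L) := by positivity
  have hq0 : (0 : ℝ) < R / (8 * L) / (200 * L ^ 4) := by positivity
  have eL : 2 / (R / (8 * L) / (200 * L ^ 4) * (R / (8 * L))) = (25600 * L ^ 6 / R ^ 2 : ℝ) := by
    field_simp; ring
  have hρ2 : (2 : ℝ) ≤ R / (8 * L) := by
    refine (pow_le_pow_iff_left₀ (by norm_num) hρ0.le two_ne_zero).1 ?_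
    rw [div_pow, le_div_iff₀ (by positivity)]
    refine le_trans ?_ hbig
    have a1 : (L : ℝ) ^ 2 ≤ L ^ 6 := pow_le_pow_right₀ r1 (by norm_num)
    have a2 := mul_le_mul_of_nonneg_right D1 (show (0 : ℝ) ≤ L ^ 6 by positivity)
    have a3 : (0 : ℝ) ≤ L ^ 6 := by positivity
    linarith only [a1, a2, a3]
  have hρR : 16 * (R / (8 * L)) ≤ ((R : ℤ) : ℝ) := by
    rw [← mul_div_assoc, div_le_iff₀ (by positivity)]
    push_cast
    nlinarith only [hR0, r3, D1]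
  have htw : tw b c = 1 / (8 * Dn) := by rw [← eD]; rfl
  have hG : (25600 * L ^ 6 / R ^ 2 : ℝ) ≤ tw b c / 2 := by
    rw [htw, div_div, div_le_div_iff₀ (by positivity) (by positivity)]
    linarith only [hbig]
  have key : 1 ≤ 4 * (L : ℝ) ^ 4 * (2 * (4 * (25600 * L ^ 6 / R ^ 2) * C.card +
      12 * (R / (8 * L) / (200 * L ^ 4)) / (R / (8 * L)))) := by
    rcases hσ with rfl | rfl
    · have a1 := core_pos lam (fun a _ => lam_or a) hd hA hC2 hρ2 hρR hq0 eL.le hG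
      have a2 : (0 : ℝ) ≤ 4 * (25600 * L ^ 6 / R ^ 2) * C.card +
        12 * (R / (8 * L) / (200 * L ^ 4)) / (R / (8 * L)) := by positivity
      rw [htw, div_div, div_le_iff₀ (by positivity)] at a1
      have a3 := mul_le_mul_of_nonneg_left (show 8 * (Dn : ℝ) * 8 ≤ 8 * L ^ 4 by
        linarith only [r3, L4, D1]) a2
      linarith only [a1, a3]
    · obtain ⟨s, hs, j3⟩ := exists_sign lam lam_pos_mul (fun a _ => lam_or a) hd hA hC2 hρ2
        (by linarith only [hρR, hρ0]) hq0 eL.le hG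
      have e64 : tw b c / 8 = 1 / (64 * |4 * (c : ℝ) - b ^ 2|) := by
        unfold tw; rw [div_div]; congr 1; ring
      rw [e64] at j3
      have ok : ∀ m v : ℤ, 1 ≤ m → m ≤ 2 * L → |(v : ℝ) / m| ≤ tw b c / 4 →
          MulOK b c (R : ℤ) (R / (8 * L)) (m, v) := by
        intro m v a1 a2 a3
        refine ⟨a1, ?_, a3⟩
        have a4 : (m : ℝ) ≤ 2 * L := by exact_mod_cast a2
        rw [← mul_div_assoc, div_le_iff₀ (by positivity)]
        push_cast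
        nlinarith only [hR0, a4]
      have j4 : ∀ m : ℕ, 256 * Dn ≤ m → m ≤ 2 * L → Good s (1 / (64 * |4 * (c : ℝ) - b ^ 2|))
          (A (1 / m)) (lam (m ^ 2 + (4 * c - b ^ 2))) (2 * (4 * (25600 * L ^ 6 / R ^ 2) * C.card +
            12 * (R / (8 * L) / (200 * L ^ 4)) / (R / (8 * L)))) := by
        intro m a1 a2
        have a3 : 256 * (Dn : ℝ) ≤ m := by exact_mod_cast a1
        have := j3 (m, 1) (ok m 1 (by omega) (by omega) (by
          push_cast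
          rw [abs_of_pos (div_pos one_pos (by linarith only [a3, D1])), htw, div_div]
          exact one_div_le_one_div_of_le (by positivity) (by linarith only [a3, D1]))) 0
          (by rw [abs_zero]; positivity)
        simpa only [ang, col, add_zero, one_pow, mul_one, Int.cast_one, Int.cast_natCast] using this
      exact chain (R := L) (b := m0) (L := L) (G := 25600 * L ^ 6 / R ^ 2) hA d1 hs
        g1 g2 g3 g4 g6 η0 (by positivity) (by rw [eD]; exact_mod_cast y5) y6 y7 y8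
        le_rfl (by exact_mod_cast (by nlinarith only [l2] : 4 * (8 * k ^ 3) ^ 2 ≤ L))
        (fun m a1 a2 => ⟨_, lam_mul_self _, j4 m (by omega) (by omega)⟩)
        (fun t ht => by
          have := j3 (1, 0) (ok 1 0 le_rfl (by omega) (by simpa using (half_pos (half_pos (tw_pos hd))).le.trans_eq (by ring))) t ht
          simpa [ang, col, hA.zero, lam_one] using this)
        (hb' ▸ j4 m0 hb (by omega)) (by rw [eD]; exact_mod_cast hb)
        ((mul_le_mul_of_nonneg_left (g5 L (by linarith only [r1])) (by norm_num)).trans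
          ((small_end hk (show _ ≤ L by omega) h2 (by positivity)).trans (by
            push_cast
            refine div_le_div_of_nonneg_right ?_ (by positivity)
            linarith only [one_le_pow₀ r1 (n := 6)])))
        (by positivity)
  have hH : (1 + Real.log R) ^ 2 ≤ 4 * (k : ℝ) ^ 2 := by
    have a1 : Real.log ((R : ℝ) ^ 2) ≤ Real.log (2 ^ k) :=
      Real.log_le_log (by positivity) (by exact_mod_cast h2)
    rw [Real.log_pow, Real.log_pow] at a1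
    have a2 := Real.log_two_lt_d9
    have a3 := Real.log_nonneg hR'
    push_cast at a1
    have a6 : 1 + Real.log R ≤ 2 * k := by nlinarith only [a1, a2, a3, k1]
    calc _ ≤ (2 * (k : ℝ)) ^ 2 := pow_le_pow_left₀ (by linarith only [a3]) a6 2
      _ = _ := by ring
  rw [eD] at hC1
  have := fin_ineq D1 r1 k1 hR0 hH key hC1
  rw [hL'] at this
  have h3 : (0 : ℝ) ≤ 409600 * Dn * u ^ 6 * k ^ 184 * (Lab lam b c R σ).card := by positivity
  have h4 : (0 : ℝ) ≤ (3200000 * (80000000 * (Dn + 1)) ^ 2 * u ^ 30 + 409600 * Dn * u ^ 6) *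
    k ^ 184 := by positivity
  linarith only [this, h3, h4]

theorem lab_le (f : ℤ → ℤ) (b c σ : ℤ) (R X : ℕ) (h : (R : ℤ) ^ 2 + |b| ≤ X) :
    (Lab f b c R σ).card ≤ ((Icc 1 X).filter fun n : ℕ => 0 < (n : ℤ) ^ 2 + b * n + c ∧
      f ((n : ℤ) ^ 2 + b * n + c) = σ).card + (b.natAbs + 1) := by
  have hsub : Lab f b c R σ ⊆ (((Icc 1 X).filter fun n : ℕ => 0 < (n : ℤ) ^ 2 + b * n + c ∧
      f ((n : ℤ) ^ 2 + b * n + c) = σ).image fun n : ℕ => (n : ℤ)) ∪ Icc (-|b|) 0 := by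
    intro n hn
    obtain ⟨h1, h2⟩ := mem_filter.1 hn
    obtain ⟨h3, h4⟩ := mem_Icc.1 h1
    rcases le_or_gt n 0 with h5 | h5
    · exact mem_union_right _ (mem_Icc.2 ⟨h3, h5⟩)
    · obtain ⟨m, rfl⟩ := Int.eq_ofNat_of_zero_le h5.le
      exact mem_union_left _ (mem_image.2 ⟨m, mem_filter.2 ⟨mem_Icc.2 ⟨by omega, by omega⟩, h2⟩, rfl⟩)
  refine (card_le_card hsub).trans ((card_union_le _ _).trans (add_le_add card_image_le ?_))
  rw [Int.card_Icc, Int.abs_eq_natAbs]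
  omega

theorem liouville_count (b c : ℤ) (hd : b ^ 2 ≠ 4 * c) (σ : ℤ) (hσ : σ = 1 ∨ σ = -1) :
    ∀ᶠ X : ℕ in atTop, (X : ℝ) / Real.log X ^ 185 ≤
      ((Icc 1 X).filter fun n : ℕ => 0 < (n : ℤ) ^ 2 + b * n + c ∧
        (-1 : ℤ) ^ (ArithmeticFunction.cardFactors ((n : ℤ) ^ 2 + b * n + c).toNat) = σ).card := by
  obtain ⟨K, hK, hc⟩ := count_lower b c (sub_ne_zero.2 hd.symm)
  have t1 : Tendsto (fun X : ℕ => Real.log X) atTop atTop :=
    Real.tendsto_log_atTop.comp tendsto_natCast_atTop_atTop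
  have t2 := tendsto_natCast_atTop_atTop.eventually
    ((Real.isLittleO_pow_log_id_atTop (n := 185)).bound
      (show (0 : ℝ) < 1 / (b.natAbs + 2) by positivity))
  filter_upwards [t1.eventually_ge_atTop (16 * K * 3 ^ 184 + 1), t2,
    eventually_ge_atTop (2 * b.natAbs + 17)] with X s1 s2 hX
  have hX0 : (0 : ℝ) < X := by exact_mod_cast (show 0 < X by omega)
  have s0 : 0 < 16 * K * 3 ^ 184 := by positivity
  have l0 : 0 < Real.log X := by linarith
  have a4 : (Nat.log 2 X : ℝ) ≤ 2 * Real.log X := by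
    have b1 := Real.log_le_log (by positivity)
      ((Nat.cast_le (α := ℝ)).2 (Nat.pow_log_le_self 2 (show X ≠ 0 by omega)))
    push_cast at b1
    rw [Real.log_pow] at b1
    nlinarith [Real.log_two_gt_d9, (Nat.cast_nonneg _ : (0 : ℝ) ≤ Nat.log 2 X)]
  have a5 : ((Nat.log 2 X + 1 : ℕ) : ℝ) ^ 184 ≤ (3 * Real.log X) ^ 184 :=
    pow_le_pow_left₀ (by positivity) (by push_cast; linarith) _
  set R := Nat.sqrt (X / 2) with hR
  have r1 : R * R ≤ X / 2 := Nat.sqrt_le _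
  have r2 : X / 2 < (R + 1) * (R + 1) := Nat.lt_succ_sqrt _
  have r3 : 1 ≤ R := Nat.sqrt_pos.2 (by omega)
  have r4 : X ≤ 8 * R ^ 2 := by
    have : (R + 1) * (R + 1) ≤ 4 * R ^ 2 := by nlinarith
    omega
  have r5 : R ^ 2 + b.natAbs ≤ X := by rw [sq]; omega
  have m1 := hc σ hσ (Nat.log 2 X + 1) R (by omega) r3
    ((show R ^ 2 ≤ X by omega).trans (Nat.lt_pow_succ_log_self (by norm_num) X).le)
  have m2 := lab_le lam b c σ R X (by rw [Int.abs_eq_natAbs]; exact_mod_cast r5)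
  have ef : ((Icc 1 X).filter fun n : ℕ => 0 < (n : ℤ) ^ 2 + b * n + c ∧
      lam ((n : ℤ) ^ 2 + b * n + c) = σ) = (Icc 1 X).filter fun n : ℕ => 0 < (n : ℤ) ^ 2 + b * n + c ∧
        (-1 : ℤ) ^ (ArithmeticFunction.cardFactors ((n : ℤ) ^ 2 + b * n + c).toNat) = σ :=
    filter_congr fun n _ => and_congr_right fun h => by
      rw [lam, show ((n : ℤ) ^ 2 + b * n + c).natAbs = ((n : ℤ) ^ 2 + b * n + c).toNat by omega]
  rw [ef] at m2
  set N : ℝ := (((Icc 1 X).filter fun n : ℕ => 0 < (n : ℤ) ^ 2 + b * n + c ∧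
    (-1 : ℤ) ^ (ArithmeticFunction.cardFactors ((n : ℤ) ^ 2 + b * n + c).toNat) = σ).card : ℝ)
    with hNdef
  have m3 : ((Lab lam b c R σ).card : ℝ) + 1 ≤ N + (b.natAbs + 2) := by
    have : ((Lab lam b c R σ).card : ℝ) ≤ N + (b.natAbs + 1) := by rw [hNdef]; exact_mod_cast m2
    linarith
  have r4' : (X : ℝ) ≤ 8 * R ^ 2 := by exact_mod_cast r4
  have hN0 : 0 ≤ N + (b.natAbs + 2) := by positivity
  have m4 : (X : ℝ) ≤ 8 * (K * (3 * Real.log X) ^ 184 * (N + (b.natAbs + 2))) := by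
    refine r4'.trans (mul_le_mul_of_nonneg_left (m1.trans ?_) (by norm_num))
    exact mul_le_mul (mul_le_mul_of_nonneg_left a5 hK.le) m3 (by positivity) (by positivity)
  have e1 : ((b.natAbs : ℝ) + 2) * Real.log X ^ 185 ≤ X := by
    simp only [Real.norm_eq_abs, id_eq, abs_of_pos hX0, abs_of_pos (pow_pos l0 185)] at s2
    rwa [one_div_mul_eq_div, le_div_iff₀ (by positivity), mul_comm] at s2
  have m6 := mul_le_mul_of_nonneg_left (show 16 * K * 3 ^ 184 ≤ Real.log X by linarith)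
    (mul_nonneg (pow_pos l0 184).le hN0)
  rw [div_le_iff₀ (pow_pos l0 _)]
  rw [mul_pow] at m4
  rw [pow_succ] at e1 ⊢
  generalize Real.log X ^ 184 = Y at *
  generalize (3 : ℝ) ^ 184 = T at *
  linarith only [m4, e1, m6]

end Pool.Agent.P.MP_192724_nt.H3
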